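import Pool.Agent.Helper53.Slit.Link

/-!
Critical bond percolation on the square lattice: Cardy's formula for slit strips.

Strip `0 ≤ x + y ≤ L`, `|x - y| ≤ M`, slit between the lines `x + y = i` and `x + y = i + 1` at
`x - y ≥ 1`; crossing from the left side of the slit to the right wall `x + y = L`.
-/

set_option autoImplicit false

open H47Perc Set Filter Topology

namespace Pool.Agent.Results.MP_35f495_pr.SlitCardy

/-- the vertices of the strip `0 ≤ x + y ≤ L`, `|x - y| ≤ M` -/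
noncomputable def strip (L M : ℤ) : Finset (ℤ × ℤ) :=
  (Finset.Icc (-(L + M), -(L + M)) (L + M, L + M)).filter
    (fun z => 0 ≤ z.1 + z.2 ∧ z.1 + z.2 ≤ L ∧ |z.1 - z.2| ≤ M)

/-- the edge `e` crosses the slit: it joins the lines `x + y = i` and `x + y = i + 1`, both ends
having `x - y ≥ 1` -/
def Cut (i : ℤ) (e : Sym2 (ℤ × ℤ)) : Prop := ∃ u v : ℤ × ℤ, e = s(u, v) ∧ u.1 + u.2 = i ∧
  v.1 + v.2 = i + 1 ∧ 1 ≤ u.1 - u.2 ∧ 1 ≤ v.1 - v.2

open Classical in
/-- some vertex of the left side `x + y = i`, `x - y ≥ 1` of the slit is joined to the right wall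
`x + y = L` by open edges that do not cross the slit -/
def Crossing (L i : ℤ) (ω : Finset (Sym2 (ℤ × ℤ))) : Prop :=
  ∃ z z' : ℤ × ℤ, z.1 + z.2 = i ∧ 1 ≤ z.1 - z.2 ∧ z'.1 + z'.2 = L ∧
    Joined (ω.filter (fun e => ¬ Cut i e)) z z'

/-- rising factorial `s (s+1) ... (s+n-1)` -/
noncomputable def rf (s : ℝ) (n : ℕ) : ℝ := ∏ k ∈ Finset.range n, (s + k)

/-- the exact crossing probability of the infinite slit strip (`L`, `i` odd) -/
noncomputable def U (L i : ℕ) : ℝ :=
  (∑ j ∈ Finset.range (i + 1), (L.choose j : ℝ) * rf (1 / 3) j * rf (1 / 3) (L - j)) / rf (2 / 3) L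

/-- Cardy's function of the cross-ratio -/
noncomputable def cardyF (a : ℝ) : ℝ :=
  Real.Gamma (2 / 3) / Real.Gamma (1 / 3) ^ 2 * ∫ t in (0 : ℝ)..a, (t * (1 - t)) ^ (-(2 / 3) : ℝ)

/-- `φ` is a conformal map of the upper half-plane onto the strip `0 < re < 1` slit along
`{a + i y, y ≥ 0}`, continuous up to the boundary (except at `0`, `1`), with the boundary values:
`(-∞,0)` = right wall, `(0,1-a)` = right side of the slit, `1-a` = tip, `(1-a,1)` = left side of the
slit, `(1,∞)` = left wall -/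
structure IsSlitMap (a : ℝ) (φ : ℂ → ℂ) : Prop where
  holomorphic : DifferentiableOn ℂ φ {z | 0 < z.im}
  bijective : BijOn φ {z | 0 < z.im} {w | 0 < w.re ∧ w.re < 1 ∧ ¬ (w.re = a ∧ 0 ≤ w.im)}
  continuous : ContinuousOn φ ({z | 0 ≤ z.im} \ {0, 1})
  right_wall : ∀ x : ℝ, x < 0 → (φ x).re = 1
  right_wall_bij : BijOn (fun x : ℝ => (φ x).im) (Iio 0) univ
  slit_right : ∀ x : ℝ, 0 < x → x < 1 - a →
    (φ x).re = a ∧ ∀ᶠ z in 𝓝[{z | 0 < z.im}] (x : ℂ), a < (φ z).re
  slit_right_bij : BijOn (fun x : ℝ => (φ x).im) (Ioo 0 (1 - a)) (Ioi 0)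
  tip : φ (1 - a) = a
  slit_left : ∀ x : ℝ, 1 - a < x → x < 1 →
    (φ x).re = a ∧ ∀ᶠ z in 𝓝[{z | 0 < z.im}] (x : ℂ), (φ z).re < a
  slit_left_bij : BijOn (fun x : ℝ => (φ x).im) (Ioo (1 - a) 1) (Ioi 0)
  left_wall : ∀ x : ℝ, 1 < x → (φ x).re = 0
  left_wall_bij : BijOn (fun x : ℝ => (φ x).im) (Ioi 1) univ

lemma strip_eq (L M : ℤ) : strip L M = DS.dstrip L M := by
  unfold strip DS.dstrip box
  congr

lemma crossing_eq (L i M : ℤ) : perc half (strip L M) (Crossing L i) = SL.pSlit L i M := by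
  rw [SL.pSlit_eq_perc, strip_eq]
  rfl

/-- **Cardy's formula for slit strips.**  There are `0 < c` and `C` such that the probability `p` of
the crossing of the slit strip satisfies
(1) for all odd `i < L` and all `M`: `|p - U(L,i)| ≤ C exp (-c M / L)`, where
`U(L,i) = Σ_{j ≤ i} C(L,j) (1/3)_j (1/3)_{L-j} / (2/3)_L`;
(2) for all `0 < a < 1` and `ε > 0` there are `δ > 0` and `L₀` with `|p - F(a)| ≤ ε + C exp (-c M / L)`
for all `L ≥ L₀`, all `i` with `|i/L - a| < δ` and all `M`, where `F` is Cardy's function;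
(3) for every `0 < a < 1` there is a conformal map of the upper half-plane onto the strip
`0 < re < 1` slit along `{a + i y, y ≥ 0}`, which maps `(1-a,1)` onto the left side of the slit and
`(-∞,0)` onto the right wall: the cross-ratio of the slit strip is `a`. -/
theorem result :
    (∃ c C : ℝ, 0 < c ∧
      (∀ L i M : ℕ, Odd L → Odd i → i < L →
        |perc half (strip L M) (Crossing L i) - U L i| ≤ C * Real.exp (-(c * (M / L)))) ∧
      ∀ a : ℝ, 0 < a → a < 1 → ∀ ε : ℝ, 0 < ε → ∃ δ : ℝ, 0 < δ ∧ ∃ L₀ : ℕ, ∀ L i M : ℕ,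
        L₀ ≤ L → |(i : ℝ) / L - a| < δ →
          |perc half (strip L M) (Crossing L i) - cardyF a| ≤
            ε + C * Real.exp (-(c * (M / L)))) ∧
    ∀ a : ℝ, 0 < a → a < 1 → ∃ φ : ℂ → ℂ, IsSlitMap a φ := by
  constructor
  · obtain ⟨c, C, hc, h1, h2⟩ := SL.slit_main
    refine ⟨c, C, hc, fun L i M hL hi hiL => ?_, fun a ha0 ha1 ε hε => ?_⟩
    · rw [crossing_eq]
      exact h1 L i M hL hi hiL
    · obtain ⟨δ, hδ, L₀, h3⟩ := h2 a ha0 ha1 ε hε
      refine ⟨δ, hδ, L₀, fun L i M hL hi => ?_⟩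
      rw [crossing_eq]
      exact h3 L i M hL hi
  · intro a h0 h1
    obtain ⟨φ, h⟩ := Helper15.Slit.exists_isSlitMap h0 h1
    exact ⟨φ, h.holomorphic, h.bijective, h.continuous, h.right_wall, h.right_wall_bij,
      h.slit_right, h.slit_right_bij, h.tip, h.slit_left, h.slit_left_bij, h.left_wall,
      h.left_wall_bij⟩

end Pool.Agent.Results.MP_35f495_pr.SlitCardy
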